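import Pool.Agent.H5.DPG.Stmts

/-! # Row CMG of the board `dpg` -/

set_option autoImplicit false

namespace Pool.DPG

open Pool.PG

private theorem cmg_len {n : ℕ} (o : Fin n → Bool) (p : Fin n → ℕ) (E : Fin n → Fin n → Bool) :
    (dgame o p E).length = n := by
  unfold dgame; simp

private theorem cmg_clen {n : ℕ} (o : Fin n → Bool) (p : Fin n → ℕ) (E : Fin n → Fin n → Bool) :
    (cmp (dgame o p E)).length = n := by
  unfold PG.cmp; rw [List.length_map, cmg_len]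

private theorem cmg_msuc {n : ℕ} (o : Fin n → Bool) (p : Fin n → ℕ) (E : Fin n → Fin n → Bool)
    (v : Fin n) (w : ℕ) : w ∈ suc (cmp (dgame o p E)) v ↔ ∃ u : Fin n, E v u = true ∧ (u : ℕ) = w := by
  have h1 : (v : ℕ) < (cmp (dgame o p E)).length := by rw [cmg_clen]; exact v.2
  have h3 : (v : ℕ) < (dgame o p E).length := by rw [cmg_len]; exact v.2
  have h4 : ((cmp (dgame o p E))[(v : ℕ)]'h1).2 =
      ((dgame o p E)[(v : ℕ)]'h3).2.map fun w => min w (dgame o p E).length := by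
    simp only [PG.cmp, List.getElem_map]
  have h5 : ∀ w : ℕ, w ∈ ((dgame o p E)[(v : ℕ)]'h3).2 ↔
      ∃ u : Fin n, E v u = true ∧ (u : ℕ) = w := by
    intro w
    simp only [dgame, List.getElem_ofFn, List.map_id', List.bind_eq_flatMap, List.pure_def,
      List.mem_flatMap, List.mem_filter, List.mem_finRange, true_and, List.mem_singleton, Fin.eta]
    constructor
    · rintro ⟨u, hu, rfl⟩
      exact ⟨u, hu, rfl⟩
    · rintro ⟨u, hu, rfl⟩
      exact ⟨u, hu, rfl⟩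
  have h6 : ∀ w' ∈ ((dgame o p E)[(v : ℕ)]'h3).2, min w' (dgame o p E).length = w' := by
    intro w' hw'
    rw [cmg_len]
    obtain ⟨u, _, rfl⟩ := (h5 w').1 hw'
    exact min_eq_left u.2.le
  unfold suc vx
  rw [List.getD_eq_getElem _ _ h1, h4, ← h5, List.mem_map]
  constructor
  · rintro ⟨w', hw', h⟩
    rw [h6 w' hw'] at h
    rwa [← h]
  · intro h
    exact ⟨w, h, h6 w h⟩

private theorem cmg_mem {n : ℕ} (o : Fin n → Bool) (p : Fin n → ℕ) (E : Fin n → Fin n → Bool)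
    (v w : Fin n) : (w : ℕ) ∈ suc (cmp (dgame o p E)) v ↔ E v w = true := by
  rw [cmg_msuc]
  constructor
  · rintro ⟨u, hu, huw⟩
    have h : u = w := Fin.ext huw
    rw [← h]
    exact hu
  · intro h
    exact ⟨w, h, rfl⟩

/-- The elements of `A` as elements of `Fin n`. -/
private def cmg_fin (n : ℕ) (A : Finset ℕ) : Finset (Fin n) :=
  Finset.univ.filter fun a : Fin n => (a : ℕ) ∈ A

private theorem cmg_fin_mem {n : ℕ} {A : Finset ℕ} {a : Fin n} :
    a ∈ cmg_fin n A ↔ (a : ℕ) ∈ A := by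
  unfold cmg_fin
  rw [Finset.mem_filter]
  exact ⟨fun h => h.2, fun h => ⟨Finset.mem_univ _, h⟩⟩

private theorem cmg_fin_map {n : ℕ} {A : Finset ℕ} (hA : A ⊆ Finset.range n) :
    (cmg_fin n A).map Fin.valEmbedding = A := by
  ext a
  rw [Finset.mem_map]
  constructor
  · rintro ⟨b, hb, rfl⟩
    exact cmg_fin_mem.1 hb
  · intro ha
    exact ⟨⟨a, Finset.mem_range.1 (hA ha)⟩, cmg_fin_mem.2 ha, rfl⟩

private theorem cmg_fin_card {n : ℕ} {A : Finset ℕ} (hA : A ⊆ Finset.range n) :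
    (cmg_fin n A).card = A.card := by
  conv_rhs => rw [← cmg_fin_map hA]
  rw [Finset.card_map]

private theorem cmg_filter {n : ℕ} {B : Finset ℕ} (f : Fin n → Prop) [DecidablePred f]
    (g : ℕ → Prop) [DecidablePred g] (h : ∀ b : Fin n, f b → g b) :
    ((cmg_fin n B).filter f).card ≤ (B.filter g).card := by
  rw [← Finset.card_map Fin.valEmbedding]
  refine Finset.card_le_card ?_
  intro b hb
  rw [Finset.mem_map] at hb
  obtain ⟨c, hc, rfl⟩ := hb
  rw [Finset.mem_filter] at hc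
  exact Finset.mem_filter.2 ⟨cmg_fin_mem.1 hc.1, h c hc.2⟩

theorem cmg_thm : CMGStmt := by
  intro n K o p E hE hv
  refine ⟨cmg_clen o p E, ?_, ?_⟩
  · intro k hk A B hA hB hAk hBk
    rw [cmg_clen] at hA hB
    obtain ⟨⟨a, ha, h1⟩, ⟨b, hb, h2⟩⟩ := hE k hk (cmg_fin n A) (cmg_fin n B)
      (by rw [cmg_fin_card hA]; exact hAk) (by rw [cmg_fin_card hB]; exact hBk)
    refine ⟨⟨a, cmg_fin_mem.1 ha, le_trans h1 ?_⟩, ⟨b, cmg_fin_mem.1 hb, le_trans h2 ?_⟩⟩
    · exact cmg_filter _ _ fun c hc => (cmg_mem o p E a c).2 hc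
    · exact cmg_filter _ _ fun c hc => (cmg_mem o p E c b).2 hc
  · intro v hvn
    rw [cmg_clen] at hvn
    refine ⟨?_, ?_⟩
    · obtain ⟨w, hw⟩ := hv ⟨v, hvn⟩
      have h2 := (cmg_mem o p E ⟨v, hvn⟩ w).2 hw
      exact List.ne_nil_of_mem h2
    · intro w hw
      have h2 : w ∈ suc (cmp (dgame o p E)) ((⟨v, hvn⟩ : Fin n) : ℕ) := hw
      obtain ⟨u, _, rfl⟩ := (cmg_msuc o p E ⟨v, hvn⟩ w).1 h2
      rw [cmg_clen]
      exact u.2

end Pool.DPG
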